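import Pool.Agent.Lib.MP_99c308_an.Modular

set_option autoImplicit false

/-! The invariants `g₂`, `g₃` of the lattice `ℤ τ + ℤ` in terms of the Eisenstein series
`E₄`, `E₆`, and the existence of a lattice whose curve is `y² = 4 (x³ - 59 ρ² x + 138 ρ³)`. -/

open UpperHalfPlane ModularForm EisensteinSeries
open scoped Real

namespace Pool.Agent.MP99c308

noncomputable section

/-- The pair of periods `(τ, 1)`. -/
def pp (τ : ℍ) : PeriodPair where
  ω₁ := τ
  ω₂ := 1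
  indep := by
    rw [LinearIndependent.pair_iff]
    intro s t h
    have him := congrArg Complex.im h
    have hre := congrArg Complex.re h
    simp at him hre
    have hs : s = 0 := by
      rcases him with h | h
      · exact h
      · exact absurd h τ.im_ne_zero
    subst hs
    simp at hre
    exact ⟨rfl, hre⟩

lemma G_eq (τ : ℍ) {k : ℕ} (hk : 3 ≤ k) :
    (pp τ).G k = 2 * riemannZeta k * E hk τ := by
  have h1 : (pp τ).G k = ∑' v : Fin 2 → ℤ, eisSummand k v τ := by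
    rw [PeriodPair.G, ← ((finTwoArrowEquiv ℤ).trans
      (pp τ).latticeEquivProd.symm.toEquiv).tsum_eq]
    refine tsum_congr fun v => ?_
    have h2 : (((finTwoArrowEquiv ℤ).trans (pp τ).latticeEquivProd.symm.toEquiv) v :
        (pp τ).lattice).1 = v 0 * (τ : ℂ) + v 1 := by
      have h3 := (pp τ).latticeEquiv_symm_apply ((finTwoArrowEquiv ℤ) v)
      have h4 : (((finTwoArrowEquiv ℤ).trans (pp τ).latticeEquivProd.symm.toEquiv) v :
        (pp τ).lattice).1 = ((pp τ).latticeEquivProd.symm ((finTwoArrowEquiv ℤ) v)).1 := rfl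
      have h5 : (pp τ).ω₁ = (τ : ℂ) := rfl
      have h6 : (pp τ).ω₂ = 1 := rfl
      rw [h4, h3, h5, h6]
      simp [finTwoArrowEquiv]
    rw [h2, eisSummand, zpow_neg, zpow_natCast]
  have h3 : E hk τ = (1 / 2 : ℂ) * eisensteinSeries (N := 1) 0 k τ := rfl
  rw [h1, tsum_eisSummand_eq_riemannZeta_mul_eisensteinSeries hk, h3]
  ring

lemma bernoulli_six : bernoulli 6 = 1 / 42 := by
  have h5 : bernoulli' 5 = 0 := bernoulli'_eq_zero_of_odd (by decide) (by norm_num)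
  rw [bernoulli_eq_bernoulli'_of_ne_one (by norm_num), bernoulli'_def]
  simp only [Finset.sum_range_succ, Finset.sum_range_zero, bernoulli'_zero, bernoulli'_one,
    bernoulli'_two, bernoulli'_three, bernoulli'_four, h5]
  norm_num [Nat.choose]

lemma zeta_six : riemannZeta (6 : ℕ) = (π : ℂ) ^ 6 / 945 := by
  have h := riemannZeta_two_mul_nat (k := 3) (by norm_num)
  have h2 : ((6 : ℕ) : ℂ) = 2 * ((3 : ℕ) : ℂ) := by norm_num
  rw [h2, h]
  norm_num [bernoulli_six, Nat.factorial]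
  ring

lemma g₂_eq (τ : ℍ) : (pp τ).g₂ = 4 * (π : ℂ) ^ 4 / 3 * E₄ τ := by
  have h : riemannZeta (4 : ℕ) = (π : ℂ) ^ 4 / 90 := by
    simpa using riemannZeta_four
  rw [PeriodPair.g₂, G_eq τ (by norm_num : 3 ≤ 4), h]
  ring

lemma g₃_eq (τ : ℍ) : (pp τ).g₃ = 8 * (π : ℂ) ^ 6 / 27 * E₆ τ := by
  rw [PeriodPair.g₃, G_eq τ (by norm_num : 3 ≤ 6), zeta_six]
  ring

/-- There is a lattice and `ρ ≠ 0` with `g₂ = 236 ρ²` and `g₃ = -552 ρ³`. -/
lemma exists_lattice : ∃ (L : PeriodPair) (ρ : ℂ), ρ ≠ 0 ∧ L.g₂ = 236 * ρ ^ 2 ∧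
    L.g₃ = -552 * ρ ^ 3 := by
  obtain ⟨τ, hτ⟩ := exists_pencil_eq_zero 128547 205379 (by norm_num)
  have hpi : (π : ℂ) ≠ 0 := by exact_mod_cast Real.pi_ne_zero
  have h4 : E₄ τ ≠ 0 := by
    intro h
    have h6 : E₆ τ = 0 := by
      rw [h] at hτ
      have : E₆ τ ^ 2 = 0 := by
        have h0 : (205379 : ℂ) * E₆ τ ^ 2 = 0 := by rw [← hτ]; ring
        exact (mul_eq_zero.mp h0).resolve_left (by norm_num)
      exact pow_eq_zero_iff (by norm_num) |>.mp this
    exact E₄_cube_ne_E₆_sq τ (by rw [h, h6]; ring)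
  have h6 : E₆ τ ≠ 0 := by
    intro h
    rw [h] at hτ
    have h0 : (128547 : ℂ) * E₄ τ ^ 3 = 0 := by rw [hτ]; ring
    exact h4 (pow_eq_zero_iff (by norm_num) |>.mp
      ((mul_eq_zero.mp h0).resolve_left (by norm_num)))
  obtain ⟨A, hA⟩ : ∃ A, A = (pp τ).g₂ / 236 := ⟨_, rfl⟩
  obtain ⟨B, hB⟩ : ∃ B, B = (pp τ).g₃ / (-552) := ⟨_, rfl⟩
  have hA0 : A ≠ 0 := by
    rw [hA, g₂_eq]
    exact div_ne_zero (mul_ne_zero (div_ne_zero (mul_ne_zero (by norm_num) (pow_ne_zero _ hpi))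
      (by norm_num)) h4) (by norm_num)
  have hB0 : B ≠ 0 := by
    rw [hB, g₃_eq]
    exact div_ne_zero (mul_ne_zero (div_ne_zero (mul_ne_zero (by norm_num) (pow_ne_zero _ hpi))
      (by norm_num)) h6) (by norm_num)
  have hAB : B ^ 2 = A ^ 3 := by
    rw [hA, hB, g₂_eq, g₃_eq]
    linear_combination (-(π : ℂ) ^ 12 / (27 * 128547 * 205379)) * hτ
  have hg2 : (pp τ).g₂ = 236 * A := by rw [hA]; ring
  have hg3 : (pp τ).g₃ = -552 * B := by rw [hB]; ring
  refine ⟨pp τ, B / A, div_ne_zero hB0 hA0, ?_, ?_⟩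
  · rw [hg2, div_pow, hAB]
    field_simp
  · rw [hg3, div_pow]
    have : B ^ 3 = B * A ^ 3 := by rw [← hAB]; ring
    rw [this]
    field_simp

end

end Pool.Agent.MP99c308
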