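import Mathlib

set_option autoImplicit false

/-! Values of `E₄³ / E₆²`: for `a ≠ b` there is a point of the upper half plane at which
`a E₄³ = b E₆²`. -/

open UpperHalfPlane ModularForm ModularFormClass SlashInvariantForm SlashInvariantFormClass MatrixGroups
  EisensteinSeries Filter OnePoint
open scoped Topology Manifold

namespace Pool.Agent.MP99c308

noncomputable section

/-- The form `a E₄³ - b E₆²` of weight 12. -/
def pencil (a b : ℂ) : ModularForm 𝒮ℒ 12 :=
  a • ModularForm.mcast (by decide) (E₄.pow 3) - b • ModularForm.mcast (by decide) (E₆.pow 2)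

lemma pencil_apply (a b : ℂ) (z : ℍ) : pencil a b z = a * E₄ z ^ 3 - b * E₆ z ^ 2 := by
  simp only [pencil, sub_apply, smul_apply, coe_mcast, coe_pow, Pi.pow_apply, smul_eq_mul]

lemma tendsto_atImInfty_coeff {k : ℤ} (f : ModularForm 𝒮ℒ k) :
    Tendsto (⇑f) atImInfty (𝓝 ((qExpansion 1 f).coeff 0)) := by
  have han := ModularFormClass.analyticAt_cuspFunction_zero f one_pos one_mem_strictPeriods_SL
  have h1 : (cuspFunction 1 f ∘ fun τ ↦ Function.Periodic.qParam 1 τ : ℍ → ℂ) = f := by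
    funext τ
    simpa using SlashInvariantFormClass.eq_cuspFunction f τ one_mem_strictPeriods_SL one_ne_zero
  have h2 := han.continuousAt.tendsto.comp (qParam_tendsto_atImInfty one_pos)
  rw [h1] at h2
  have h3 : (qExpansion 1 f).coeff 0 = cuspFunction 1 f 0 := by
    simp [qExpansion_coeff]
  rw [h3]
  exact h2

lemma exists_pencil_eq_zero (a b : ℂ) (hab : a ≠ b) : ∃ z : ℍ, a * E₄ z ^ 3 = b * E₆ z ^ 2 := by
  by_contra hcon
  push Not at hcon
  have hne : ∀ z : ℍ, pencil a b z ≠ 0 := by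
    intro z h
    rw [pencil_apply, sub_eq_zero] at h
    exact hcon z h
  have hlim : Tendsto (⇑(pencil a b)) atImInfty (𝓝 (a - b)) := by
    have h4 := tendsto_atImInfty_coeff E₄
    have h6 := tendsto_atImInfty_coeff E₆
    rw [E_qExpansion_coeff_zero _ ⟨2, rfl⟩] at h4
    rw [E_qExpansion_coeff_zero _ ⟨3, rfl⟩] at h6
    have h := ((h4.pow 3).const_mul a).sub ((h6.pow 2).const_mul b)
    simp only [one_pow, mul_one] at h
    refine h.congr fun z => ?_
    rw [pencil_apply]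
  have hslash : ∀ γ : SL(2, ℤ), (fun z ↦ 1 / pencil a b z) ∣[(-12 : ℤ)] γ =
      fun z ↦ 1 / pencil a b z := by
    intro γ
    have hγ : (γ : GL (Fin 2) ℝ) ∈ 𝒮ℒ := ⟨γ, rfl⟩
    change (⇑(1 : ModularForm 𝒮ℒ 0) / ⇑(pencil a b)) ∣[(0 - 12 : ℤ)] γ =
      ⇑(1 : ModularForm 𝒮ℒ 0) / ⇑(pencil a b)
    simp_rw [div_slash_SL2, SL_slash, slash_action_eqn _ _ hγ]
  let G : ModularForm 𝒮ℒ (-12) :=
    { toFun := fun z ↦ 1 / pencil a b z
      slash_action_eq' := fun _ ⟨γ, hγ⟩ ↦ hγ ▸ hslash γ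
      holo' := (1 : ModularForm 𝒮ℒ 0).holo'.div (pencil a b).holo' hne
      bdd_at_cusps' := by
        intro c hc
        rw [Subgroup.IsArithmetic.isCusp_iff_isCusp_SL2Z] at hc
        rw [isBoundedAt_iff_forall_SL2Z hc]
        intro γ _
        rw [hslash γ, IsBoundedAtImInfty, BoundedAtFilter]
        have h : Tendsto (fun z ↦ 1 / pencil a b z) atImInfty (𝓝 (1 / (a - b))) :=
          tendsto_const_nhds.div hlim (sub_ne_zero.mpr hab)
        exact h.isBigO_one ℝ }
  have hG := levelOne_neg_weight_eq_zero (by norm_num : (-12 : ℤ) < 0) G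
  have h1 : G UpperHalfPlane.I = 0 := by rw [hG]; rfl
  have h2 : G UpperHalfPlane.I = 1 / pencil a b UpperHalfPlane.I := rfl
  rw [h2] at h1
  exact (one_div_ne_zero (hne _)) h1

lemma E₄_cube_ne_E₆_sq (z : ℍ) : E₄ z ^ 3 ≠ E₆ z ^ 2 := by
  intro h
  have h1 := discriminant_eq_E₄_cube_sub_E₆_sq z
  rw [h, sub_self, zero_div] at h1
  exact discriminant_ne_zero z h1

end

end Pool.Agent.MP99c308
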