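import Pool.Agent.Lib.MP_99c308_an.Lattice

set_option autoImplicit false

/-! Construction of the elliptic solution of `f⁸ + g⁸ + h⁸ = 1`. -/

open Filter
open scoped Topology

namespace Pool.Agent.MP99c308

noncomputable section

lemma P_ne_const (L : PeriodPair) (c z₀ : ℂ) : ∀ᶠ z in 𝓝[≠] z₀, L.weierstrassP z ≠ c := by
  have hm : Meromorphic (fun z => L.weierstrassP z - c) := by fun_prop
  have h0 : ∃ u : ℂ, meromorphicOrderAt (fun z => L.weierstrassP z - c) u ≠ ⊤ := by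
    refine ⟨0, ?_⟩
    intro htop
    rw [meromorphicOrderAt_eq_top_iff] at htop
    have hpole : Tendsto L.weierstrassP (𝓝[≠] 0) (Bornology.cobounded ℂ) := by
      rw [tendsto_cobounded_iff_meromorphicOrderAt_neg (L.meromorphic_weierstrassP 0),
        L.order_weierstrassP 0 (zero_mem _)]
      decide
    have hconst : L.weierstrassP =ᶠ[𝓝[≠] 0] fun _ => c := by
      filter_upwards [htop] with z hz
      simpa [sub_eq_zero] using hz
    have h1 : Tendsto (fun _ : ℂ => c) (𝓝[≠] (0 : ℂ)) (Bornology.cobounded ℂ) :=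
      hpole.congr' hconst
    rw [← tendsto_norm_atTop_iff_cobounded] at h1
    exact not_tendsto_atTop_of_tendsto_nhds tendsto_const_nhds h1
  have h1 := (hm.exists_meromorphicOrderAt_ne_top_iff_forall).mp (by simpa using h0)
  have h2 := h1 z₀
  rw [ne_eq, meromorphicOrderAt_eq_top_iff] at h2
  rcases (hm z₀).eventually_eq_zero_or_eventually_ne_zero with h | h
  · exact absurd h h2
  · filter_upwards [h] with z hz
    simpa [sub_eq_zero] using hz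

lemma notMem_lattice (L : PeriodPair) (z₀ : ℂ) : ∀ᶠ z in 𝓝[≠] z₀, z ∉ L.lattice := by
  have h := L.compl_lattice_sdiff_singleton_mem_nhds z₀
  have h2 : ∀ᶠ z in 𝓝 z₀, z ∈ ((L.lattice : Set ℂ) \ {z₀})ᶜ := h
  rw [eventually_nhdsWithin_iff]
  filter_upwards [h2] with z hz hne hmem
  exact hz ⟨hmem, hne⟩

lemma edwards_aux {A B D q : ℂ} (hD : D ≠ 0) (hq : q ≠ 0)
    (h : A ^ 2 * q ^ 2 + B ^ 2 * D ^ 2 = D ^ 2 * q ^ 2 + 8 * A ^ 2 * B ^ 2) :
    (A / D) ^ 2 + (B / q) ^ 2 = 1 + 8 * (A / D) ^ 2 * (B / q) ^ 2 := by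
  field_simp
  linear_combination h

/-- The point `(X, Y)` with `X = 4 κ (6 ρ - P) / D`, `Y = (P + ρ) / (P - 13 ρ)` lies on the
Edwards curve `X² + Y² = 1 + 8 X² Y²` when `D² = 4 P³ - 236 ρ² P + 552 ρ³` and `κ² = ρ`. -/
lemma edwards {P D ρ κ : ℂ} (hκ : κ ^ 2 = ρ) (hD : D ^ 2 = 4 * P ^ 3 - 236 * ρ ^ 2 * P + 552 * ρ ^ 3)
    (hD0 : D ≠ 0) (hP : P - 13 * ρ ≠ 0) :
    (4 * κ * (6 * ρ - P) / D) ^ 2 + ((P + ρ) / (P - 13 * ρ)) ^ 2 =
      1 + 8 * (4 * κ * (6 * ρ - P) / D) ^ 2 * ((P + ρ) / (P - 13 * ρ)) ^ 2 := by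
  refine edwards_aux hD0 hP ?_
  linear_combination (16 * (6 * ρ - P) ^ 2 * ((P - 13 * ρ) ^ 2 - 8 * (P + ρ) ^ 2)) * hκ +
    ((P + ρ) ^ 2 - (P - 13 * ρ) ^ 2) * hD

/-- The identity behind the solution: on `X² + Y² = 1 + 8 X² Y²` one has
`(X + iY)⁸ / 2 + (X - iY)⁸ / 2 - (√8 X Y)⁸ = 1`. -/
lemma eighth {X Y : ℂ} (h : X ^ 2 + Y ^ 2 = 1 + 8 * X ^ 2 * Y ^ 2) :
    1 / 2 * (X + Complex.I * Y) ^ 8 + 1 / 2 * (X - Complex.I * Y) ^ 8 - 4096 * (X * Y) ^ 8 = 1 := by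
  have hI : Complex.I ^ 2 = -1 := Complex.I_sq
  have hI4 : Complex.I ^ 4 = 1 := Complex.I_pow_four
  have hI6 : Complex.I ^ 6 = -1 := by
    rw [show (6 : ℕ) = 4 + 2 by norm_num, pow_add, hI4, hI]; ring
  have hI8 : Complex.I ^ 8 = 1 := by
    rw [show (8 : ℕ) = 4 + 4 by norm_num, pow_add, hI4]; ring
  have h1 : 1 / 2 * (X + Complex.I * Y) ^ 8 + 1 / 2 * (X - Complex.I * Y) ^ 8 =
      X ^ 8 + 28 * Complex.I ^ 2 * X ^ 6 * Y ^ 2 + 70 * Complex.I ^ 4 * X ^ 4 * Y ^ 4 +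
        28 * Complex.I ^ 6 * X ^ 2 * Y ^ 6 + Complex.I ^ 8 * Y ^ 8 := by ring
  rw [h1, hI, hI4, hI6, hI8]
  have h2 : X ^ 8 + 28 * (-1) * X ^ 6 * Y ^ 2 + 70 * 1 * X ^ 4 * Y ^ 4 +
        28 * (-1) * X ^ 2 * Y ^ 6 + 1 * Y ^ 8 = (X ^ 2 + Y ^ 2) ^ 4 -
        32 * (X ^ 2 * Y ^ 2) * (X ^ 2 + Y ^ 2) ^ 2 + 128 * (X ^ 2 * Y ^ 2) ^ 2 := by ring
  rw [h2, h]
  ring

theorem exists_solution : ∃ f g h : ℂ → ℂ, MeromorphicNFOn f Set.univ ∧
    MeromorphicNFOn g Set.univ ∧ MeromorphicNFOn h Set.univ ∧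
    (∀ c, f ≠ fun _ => c) ∧ (∀ c, g ≠ fun _ => c) ∧ (∀ c, h ≠ fun _ => c) ∧
    ∀ z, AnalyticAt ℂ f z → AnalyticAt ℂ g z → AnalyticAt ℂ h z →
      f z ^ 8 + g z ^ 8 + h z ^ 8 = 1 := by
  obtain ⟨L, ρ, hρ, hg2, hg3⟩ := exists_lattice
  obtain ⟨κ, hκ⟩ : ∃ κ : ℂ, κ ^ 2 = ρ := IsAlgClosed.exists_pow_nat_eq ρ (by norm_num)
  obtain ⟨α, hα⟩ : ∃ α : ℂ, α ^ 8 = 1 / 2 := IsAlgClosed.exists_pow_nat_eq _ (by norm_num)
  obtain ⟨β, hβ⟩ : ∃ β : ℂ, β ^ 8 = -4096 := IsAlgClosed.exists_pow_nat_eq _ (by norm_num)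
  have hκ0 : κ ≠ 0 := by rintro rfl; exact hρ (by rw [← hκ]; ring)
  have hα0 : α ≠ 0 := by rintro rfl; norm_num at hα
  have hβ0 : β ≠ 0 := by rintro rfl; norm_num at hβ
  set P := L.weierstrassP with hPdef
  set D := L.derivWeierstrassP with hDdef
  have hPm : Meromorphic P := L.meromorphic_weierstrassP
  have hDm : Meromorphic D := L.meromorphic_derivWeierstrassP
  obtain ⟨X, hX⟩ : ∃ X : ℂ → ℂ, X = fun z => 4 * κ * (6 * ρ - P z) / D z := ⟨_, rfl⟩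
  obtain ⟨Y, hY⟩ : ∃ Y : ℂ → ℂ, Y = fun z => (P z + ρ) / (P z - 13 * ρ) := ⟨_, rfl⟩
  have hXm : Meromorphic X := by rw [hX]; fun_prop
  have hYm : Meromorphic Y := by rw [hY]; fun_prop
  -- the differential equation
  have hode : ∀ z, z ∉ L.lattice → D z ^ 2 = 4 * P z ^ 3 - 236 * ρ ^ 2 * P z + 552 * ρ ^ 3 := by
    intro z hz
    have h := L.derivWeierstrassP_sq z hz
    rw [hg2, hg3] at h
    rw [h]
    ring
  -- `D` does not vanish near any point (off the point)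
  have hD0 : ∀ z₀, ∀ᶠ z in 𝓝[≠] z₀, D z ≠ 0 := by
    intro z₀
    obtain ⟨s, hs⟩ : ∃ s : ℂ, s ^ 2 = 32 := IsAlgClosed.exists_pow_nat_eq _ (by norm_num)
    filter_upwards [notMem_lattice L z₀, P_ne_const L (6 * ρ) z₀, P_ne_const L ((-3 + s) * ρ) z₀,
      P_ne_const L ((-3 - s) * ρ) z₀] with z h1 h2 h3 h4 h5
    have h6 := hode z h1
    rw [h5] at h6
    have h7 : 4 * (P z - 6 * ρ) * ((P z - (-3 + s) * ρ) * (P z - (-3 - s) * ρ)) = 0 := by
      have : (P z - (-3 + s) * ρ) * (P z - (-3 - s) * ρ) =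
          P z ^ 2 + 6 * ρ * P z + (9 - s ^ 2) * ρ ^ 2 := by ring
      rw [this, hs]
      linear_combination -h6
    rcases mul_eq_zero.mp h7 with h8 | h8
    · exact h2 (sub_eq_zero.mp ((mul_eq_zero.mp h8).resolve_left (by norm_num)))
    · rcases mul_eq_zero.mp h8 with h9 | h9
      · exact h3 (sub_eq_zero.mp h9)
      · exact h4 (sub_eq_zero.mp h9)
  -- the Edwards equation
  have hed : ∀ z₀, ∀ᶠ z in 𝓝[≠] z₀, X z ^ 2 + Y z ^ 2 = 1 + 8 * X z ^ 2 * Y z ^ 2 := by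
    intro z₀
    filter_upwards [notMem_lattice L z₀, hD0 z₀, P_ne_const L (13 * ρ) z₀] with z h1 h2 h3
    rw [hX, hY]
    exact edwards hκ (hode z h1) h2 (sub_ne_zero.mpr h3)
  have hX0 : ∀ z₀, ∀ᶠ z in 𝓝[≠] z₀, X z ≠ 0 := by
    intro z₀
    filter_upwards [hD0 z₀, P_ne_const L (6 * ρ) z₀] with z h1 h2
    rw [hX]
    exact div_ne_zero (mul_ne_zero (mul_ne_zero (by norm_num) hκ0)
      (sub_ne_zero.mpr (Ne.symm h2))) h1
  have hY0 : ∀ z₀, ∀ᶠ z in 𝓝[≠] z₀, Y z ≠ 0 := by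
    intro z₀
    filter_upwards [P_ne_const L (13 * ρ) z₀, P_ne_const L (-ρ) z₀] with z h1 h2
    rw [hY]
    refine div_ne_zero ?_ (sub_ne_zero.mpr h1)
    intro h
    exact h2 (eq_neg_of_add_eq_zero_left h)
  have hXneg : ∀ z, X (-z) = - X z := by
    intro z
    rw [hX]
    simp only [hPdef, hDdef, L.weierstrassP_neg, L.derivWeierstrassP_neg, div_neg]
  have hYneg : ∀ z, Y (-z) = Y z := by
    intro z
    rw [hY]
    simp only [hPdef, L.weierstrassP_neg]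
  -- the three functions
  obtain ⟨F, hF⟩ : ∃ F : ℂ → ℂ, F = fun z => α * (X z + Complex.I * Y z) := ⟨_, rfl⟩
  obtain ⟨G, hG⟩ : ∃ G : ℂ → ℂ, G = fun z => α * (X z - Complex.I * Y z) := ⟨_, rfl⟩
  obtain ⟨H, hH⟩ : ∃ H : ℂ → ℂ, H = fun z => β * (X z * Y z) := ⟨_, rfl⟩
  have hFm : Meromorphic F := by rw [hF]; fun_prop
  have hGm : Meromorphic G := by rw [hG]; fun_prop
  have hHm : Meromorphic H := by rw [hH]; fun_prop
  have hid : ∀ z₀, ∀ᶠ z in 𝓝[≠] z₀, F z ^ 8 + G z ^ 8 + H z ^ 8 = 1 := by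
    intro z₀
    filter_upwards [hed z₀] with z hz
    have e1 : F z ^ 8 = 1 / 2 * (X z + Complex.I * Y z) ^ 8 := by rw [hF, mul_pow, hα]
    have e2 : G z ^ 8 = 1 / 2 * (X z - Complex.I * Y z) ^ 8 := by rw [hG, mul_pow, hα]
    have e3 : H z ^ 8 = -4096 * (X z * Y z) ^ 8 := by rw [hH, mul_pow, hβ]
    rw [e1, e2, e3]
    linear_combination eighth hz
  -- reflection `z ↦ -z` near the origin
  have hneg : ∀ {p : ℂ → Prop}, (∀ᶠ z in 𝓝[≠] (0 : ℂ), p z) → ∀ᶠ z in 𝓝[≠] (0 : ℂ), p (-z) := by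
    intro p hp
    have ht : Tendsto (fun z : ℂ => -z) (𝓝[≠] 0) (𝓝[≠] 0) := by
      refine tendsto_nhdsWithin_of_tendsto_nhds_of_eventually_within _ ?_ ?_
      · have : Tendsto (fun z : ℂ => -z) (𝓝 0) (𝓝 (-0)) := continuous_neg.tendsto 0
        rw [neg_zero] at this
        exact this.mono_left nhdsWithin_le_nhds
      · filter_upwards [self_mem_nhdsWithin] with z hz
        simpa using hz
    exact ht.eventually hp
  have hFc : ∀ c : ℂ, ¬ ∀ᶠ z in 𝓝[≠] (0 : ℂ), F z = c := by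
    intro c hc
    obtain ⟨z, h1, h2, h3⟩ := (hc.and ((hneg hc).and (hX0 0))).exists
    rw [hF] at h1 h2
    simp only [hXneg, hYneg] at h1 h2
    have h4 : 2 * α * X z = 0 := by linear_combination h1 - h2
    exact h3 ((mul_eq_zero.mp h4).resolve_left (mul_ne_zero (by norm_num) hα0))
  have hGc : ∀ c : ℂ, ¬ ∀ᶠ z in 𝓝[≠] (0 : ℂ), G z = c := by
    intro c hc
    obtain ⟨z, h1, h2, h3⟩ := (hc.and ((hneg hc).and (hX0 0))).exists
    rw [hG] at h1 h2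
    simp only [hXneg, hYneg] at h1 h2
    have h4 : 2 * α * X z = 0 := by linear_combination h1 - h2
    exact h3 ((mul_eq_zero.mp h4).resolve_left (mul_ne_zero (by norm_num) hα0))
  have hHc : ∀ c : ℂ, ¬ ∀ᶠ z in 𝓝[≠] (0 : ℂ), H z = c := by
    intro c hc
    obtain ⟨z, h1, h2, h3, h4⟩ := (hc.and ((hneg hc).and ((hX0 0).and (hY0 0)))).exists
    rw [hH] at h1 h2
    simp only [hXneg, hYneg] at h1 h2
    have h5 : 2 * β * (X z * Y z) = 0 := by linear_combination h1 - h2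
    exact mul_ne_zero h3 h4 ((mul_eq_zero.mp h5).resolve_left (mul_ne_zero (by norm_num) hβ0))
  -- pass to normal forms
  have hnf : ∀ {K : ℂ → ℂ}, Meromorphic K → ∀ z₀,
      ∀ᶠ z in 𝓝[≠] z₀, toMeromorphicNFOn K Set.univ z = K z := by
    intro K hK z₀
    have := (meromorphicOn_univ.mpr hK).toMeromorphicNFOn_eq_self_on_nhdsNE (Set.mem_univ z₀)
    filter_upwards [this] with z hz using hz
  refine ⟨toMeromorphicNFOn F Set.univ, toMeromorphicNFOn G Set.univ,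
    toMeromorphicNFOn H Set.univ, meromorphicNFOn_toMeromorphicNFOn _ _,
    meromorphicNFOn_toMeromorphicNFOn _ _, meromorphicNFOn_toMeromorphicNFOn _ _, ?_, ?_, ?_, ?_⟩
  · intro c hc
    refine hFc c ?_
    filter_upwards [hnf hFm 0] with z hz
    rw [← hz, hc]
  · intro c hc
    refine hGc c ?_
    filter_upwards [hnf hGm 0] with z hz
    rw [← hz, hc]
  · intro c hc
    refine hHc c ?_
    filter_upwards [hnf hHm 0] with z hz
    rw [← hz, hc]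
  · intro z hf hg hh
    have hcont : ContinuousAt (fun w => toMeromorphicNFOn F Set.univ w ^ 8 +
        toMeromorphicNFOn G Set.univ w ^ 8 + toMeromorphicNFOn H Set.univ w ^ 8) z :=
      ((hf.continuousAt.pow 8).add (hg.continuousAt.pow 8)).add (hh.continuousAt.pow 8)
    have h1 : Tendsto (fun w => toMeromorphicNFOn F Set.univ w ^ 8 +
        toMeromorphicNFOn G Set.univ w ^ 8 + toMeromorphicNFOn H Set.univ w ^ 8) (𝓝[≠] z)
        (𝓝 1) := by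
      refine tendsto_const_nhds.congr' ?_
      filter_upwards [hid z, hnf hFm z, hnf hGm z, hnf hHm z] with w h1 h2 h3 h4
      rw [h2, h3, h4, h1]
    exact tendsto_nhds_unique (hcont.tendsto.mono_left nhdsWithin_le_nhds) h1

end

end Pool.Agent.MP99c308
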